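import Pool.Agent.Helper18.LK.Defs

set_option autoImplicit false

/-!
# Locally constant functions on preconnected sets (for the blocks LK-GTb, LK-GTc, LK-GT)
-/

namespace CArc

open Set Topology

theorem pc_ind {X : Type} [TopologicalSpace X] {C : Set X} (hC : IsPreconnected C) {P : X → Prop}
    (h : ∀ x ∈ C, ∃ U : Set X, IsOpen U ∧ x ∈ U ∧ ∀ z ∈ C ∩ U, (P z ↔ P x)) {x₁ x₂ : X}
    (h₁ : x₁ ∈ C) (h₂ : x₂ ∈ C) (hP : P x₁) : P x₂ := by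
  classical
  by_contra hn
  choose! U hUo hxU hU using h
  obtain ⟨z, hz, hz1, hz2⟩ := hC (⋃ x ∈ {x | x ∈ C ∧ P x}, U x) (⋃ x ∈ {x | x ∈ C ∧ ¬ P x}, U x)
    (isOpen_biUnion fun x hx => hUo x hx.1) (isOpen_biUnion fun x hx => hUo x hx.1)
    (fun x hx => by
      by_cases hp : P x
      · exact Or.inl (mem_biUnion (show x ∈ {x | x ∈ C ∧ P x} from ⟨hx, hp⟩) (hxU x hx))
      · exact Or.inr (mem_biUnion (show x ∈ {x | x ∈ C ∧ ¬ P x} from ⟨hx, hp⟩) (hxU x hx)))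
    ⟨x₁, h₁, mem_biUnion (show x₁ ∈ {x | x ∈ C ∧ P x} from ⟨h₁, hP⟩) (hxU x₁ h₁)⟩
    ⟨x₂, h₂, mem_biUnion (show x₂ ∈ {x | x ∈ C ∧ ¬ P x} from ⟨h₂, hn⟩) (hxU x₂ h₂)⟩
  simp only [mem_iUnion] at hz1 hz2
  obtain ⟨a, ⟨haC, haP⟩, haU⟩ := hz1
  obtain ⟨b, ⟨hbC, hbP⟩, hbU⟩ := hz2
  exact hbP ((hU b hbC z ⟨hz, hbU⟩).1 ((hU a haC z ⟨hz, haU⟩).2 haP))

theorem lc_const {X Λ : Type} [TopologicalSpace X] {C : Set X} (hC : IsPreconnected C)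
    {g : X → Λ} (hg : LC C g) {x₁ x₂ : X} (h₁ : x₁ ∈ C) (h₂ : x₂ ∈ C) : g x₂ = g x₁ := by
  refine pc_ind hC (P := fun z => g z = g x₁) (fun x hx => ?_) h₁ h₂ rfl
  obtain ⟨U, hUo, hxU, hU⟩ := hg x hx
  exact ⟨U, hUo, hxU, fun z hz => by simp only [hU z hz]⟩

theorem lc_mono {X Λ : Type} [TopologicalSpace X] {S T : Set X} (h : S ⊆ T)
    {g : X → Λ} (hg : LC T g) : LC S g := by
  intro y hy
  obtain ⟨U, hUo, hxU, hU⟩ := hg y (h hy)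
  exact ⟨U, hUo, hxU, fun z hz => hU z ⟨h hz.1, hz.2⟩⟩

theorem lc_comp {X Y Λ : Type} [TopologicalSpace X] [TopologicalSpace Y] {f : X → Y}
    (hf : Continuous f) {S : Set X} {T : Set Y} (h : ∀ x ∈ S, f x ∈ T)
    {g : Y → Λ} (hg : LC T g) : LC S (fun x => g (f x)) := by
  intro x hx
  obtain ⟨U, hUo, hxU, hU⟩ := hg (f x) (h x hx)
  exact ⟨f ⁻¹' U, hUo.preimage hf, hxU, fun z hz => hU (f z) ⟨h z hz.1, hz.2⟩⟩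

theorem lc_map₂ {X Λ₁ Λ₂ Λ₃ : Type} [TopologicalSpace X] {S : Set X} {g₁ : X → Λ₁} {g₂ : X → Λ₂}
    (F : Λ₁ → Λ₂ → Λ₃) (h₁ : LC S g₁) (h₂ : LC S g₂) : LC S (fun x => F (g₁ x) (g₂ x)) := by
  intro x hx
  obtain ⟨U, hUo, hxU, hU⟩ := h₁ x hx
  obtain ⟨U', hUo', hxU', hU'⟩ := h₂ x hx
  refine ⟨U ∩ U', hUo.inter hUo', ⟨hxU, hxU'⟩, fun z hz => ?_⟩
  simp only [hU z ⟨hz.1, hz.2.1⟩, hU' z ⟨hz.1, hz.2.2⟩]

/-- Gluing of locally constant functions on two closed pieces. -/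
theorem lc_glue {X Λ : Type} [TopologicalSpace X] {A B C : Set X} (hA : IsClosed A)
    (hB : IsClosed B) (hC : C ⊆ A ∪ B) {u v : X → Λ} (hu : LC (A ∩ C) u) (hv : LC (B ∩ C) v)
    (huv : ∀ x ∈ A ∩ B ∩ C, u x = v x) :
    ∃ w : X → Λ, LC C w ∧ (∀ x ∈ A ∩ C, w x = u x) ∧ (∀ x ∈ B ∩ C, w x = v x) := by
  classical
  have hwA : ∀ x ∈ A ∩ C, (fun x => if x ∈ A then u x else v x) x = u x := fun x hx => by
    simp only [if_pos hx.1]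
  have hwB : ∀ x ∈ B ∩ C, (fun x => if x ∈ A then u x else v x) x = v x := fun x hx => by
    by_cases hxA : x ∈ A
    · simp only [if_pos hxA]
      exact huv x ⟨⟨hxA, hx.1⟩, hx.2⟩
    · simp only [if_neg hxA]
  refine ⟨fun x => if x ∈ A then u x else v x, ?_, hwA, hwB⟩
  generalize (fun x => if x ∈ A then u x else v x) = w at hwA hwB
  intro x hx
  have h1 : ∃ U : Set X, IsOpen U ∧ x ∈ U ∧ ∀ z ∈ A ∩ C ∩ U, w z = w x := by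
    by_cases hxA : x ∈ A
    · obtain ⟨U, hUo, hxU, hU⟩ := hu x ⟨hxA, hx⟩
      exact ⟨U, hUo, hxU, fun z hz => by rw [hwA z hz.1, hwA x ⟨hxA, hx⟩, hU z hz]⟩
    · exact ⟨Aᶜ, hA.isOpen_compl, hxA, fun z hz => absurd hz.1.1 hz.2⟩
  have h2 : ∃ U : Set X, IsOpen U ∧ x ∈ U ∧ ∀ z ∈ B ∩ C ∩ U, w z = w x := by
    by_cases hxB : x ∈ B
    · obtain ⟨U, hUo, hxU, hU⟩ := hv x ⟨hxB, hx⟩
      exact ⟨U, hUo, hxU, fun z hz => by rw [hwB z hz.1, hwB x ⟨hxB, hx⟩, hU z hz]⟩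
    · exact ⟨Bᶜ, hB.isOpen_compl, hxB, fun z hz => absurd hz.1.1 hz.2⟩
  obtain ⟨U, hUo, hxU, hU⟩ := h1
  obtain ⟨U', hUo', hxU', hU'⟩ := h2
  refine ⟨U ∩ U', hUo.inter hUo', ⟨hxU, hxU'⟩, fun z hz => ?_⟩
  rcases hC hz.1 with hzA | hzB
  · exact hU z ⟨⟨hzA, hz.1⟩, hz.2.1⟩
  · exact hU' z ⟨⟨hzB, hz.1⟩, hz.2.2⟩

end CArc
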